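import Pool.Agent.K4H43.CR.Ind

/-!
# MP_b91a16_ag: the strong monodromy conjecture is a statement about cubic polynomials

`k` is a field with an embedding in `ℂ`, `K` an extension of `k`. For `f` in `k[x_1, ..., x_n]` and
a `K`-point `x` of `f = 0` the statement of Q1 in its refined form (`StrongAt`) is: there is a
finite set `S` of pairs with `(1 - 𝕃⁻¹ T) Z_{f,x}(T)` in `𝓜_K[T, 1/(1 - 𝕃^a T^b)]_{(a,b) ∈ S}` and
`a / b` a root of `b_f(s) / (s + 1)` for every `(a, b)` in `S`.

`Cubic F`: the monomials of `F` are squarefree, and `F = Q(x) + ∑_j y_j q_j(x)` with polynomials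
`Q`, `q_j` of degree at most two in the other variables.

* `StrongAt` holds for all polynomials in all numbers of variables at all their `K`-points if (and
  only if) it holds for all such `F` at all their `K`-points.
* `StrongAt` holds for all polynomials at all their `k`-points if (and only if) it holds at the
  origin for all such `F` which vanish there.
* `StrongAt` implies the statement of Q1 (`WeakAt`).
-/

set_option autoImplicit false

namespace Pool.Agent.Results.MP_b91a16_ag.CubicReduction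

open MvPolynomial Pool.Agent.W428.MOT
open Pool.Agent.H628R4.TP (IsBFunction)

/-- The refined form of Q1 for the polynomial `f` at the `K`-point `x`. -/
def StrongAt {k : Type} [Field k] [Algebra k ℂ] (K : Type) [Field K] [Algebra k K] {n : ℕ}
    (f : MvPolynomial (Fin n) k) (x : Fin n → K) : Prop :=
  ∃ S : Set (ℤ × ℤ), S.Finite ∧
    (∀ p ∈ S, 0 < p.2 ∧ ∀ c : Polynomial ℂ,
      IsBFunction (map (algebraMap k ℂ) f) ((Polynomial.X + 1) * c) →
        c.eval ((p.1 : ℂ) / (p.2 : ℂ)) = 0) ∧
    (1 - PowerSeries.C (((Lu K)⁻¹ : (MK K)ˣ) : MK K) * PowerSeries.X) *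
      zeta (map (algebraMap k K) f) x ∈ ratRing K S

/-- The statement of Q1 for the polynomial `f` at the `K`-point `x`. -/
def WeakAt {k : Type} [Field k] [Algebra k ℂ] (K : Type) [Field K] [Algebra k K] {n : ℕ}
    (f : MvPolynomial (Fin n) k) (x : Fin n → K) : Prop :=
  ∃ S : Set (ℤ × ℤ), S.Finite ∧
    (∀ p ∈ S, 0 < p.2 ∧ ∀ b : Polynomial ℂ,
      IsBFunction (map (algebraMap k ℂ) f) b → b.eval ((p.1 : ℂ) / (p.2 : ℂ)) = 0) ∧
    zeta (map (algebraMap k K) f) x ∈ ratRing K S

/-- `F` has squarefree monomials, each with at most one variable in `Y` and at most two outside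
`Y`, for some set `Y` of variables. -/
def Cubic {k : Type} [Field k] {n : ℕ} (F : MvPolynomial (Fin n) k) : Prop :=
  ∃ Y : Finset (Fin n), ∀ m ∈ F.support, (∀ i, m i ≤ 1) ∧ ∑ i ∈ Y, m i ≤ 1 ∧
    ∑ i ∈ Yᶜ, m i ≤ 2

theorem cubic_of {k : Type} [Field k] {n : ℕ} {F : MvPolynomial (Fin n) k}
    (h : Pool.Agent.K4H43.CR.Cub F) : Cubic F := by
  obtain ⟨Y, hY⟩ := h
  refine ⟨Finset.univ.filter fun i => Y i = true, fun m hm => ?_⟩
  obtain ⟨h1, h2, h3⟩ := hY m hm
  refine ⟨h1, ?_, ?_⟩
  · rw [Finset.sum_filter]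
    exact h2
  · rw [Finset.compl_filter, Finset.sum_filter]
    refine le_trans (Finset.sum_le_sum fun i _ => ?_) h3
    by_cases h4 : Y i = true
    · rw [if_neg (not_not.2 h4), if_pos h4]
    · rw [if_pos h4, if_neg h4]

/-- A translation. -/
noncomputable def tr {k : Type} [Field k] {n : ℕ} (x : Fin n → k) :
    MvPolynomial (Fin n) k →ₐ[k] MvPolynomial (Fin n) k := aeval fun i => X i + C (x i)

theorem tr_comp {k : Type} [Field k] {n : ℕ} (x : Fin n → k) :
    (tr x).comp (tr (-x)) = AlgHom.id k _ := by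
  refine MvPolynomial.algHom_ext fun i => ?_
  unfold tr
  rw [AlgHom.comp_apply, aeval_X, map_add, aeval_X, ← algebraMap_eq, AlgHom.commutes, algebraMap_eq,
    Pi.neg_apply, C_neg, AlgHom.id_apply]
  ring

/-- A translation. -/
noncomputable def tre {k : Type} [Field k] {n : ℕ} (x : Fin n → k) :
    MvPolynomial (Fin n) k ≃ₐ[k] MvPolynomial (Fin n) k :=
  AlgEquiv.ofAlgHom (tr x) (tr (-x)) (tr_comp x) (by
    have := tr_comp (-x)
    rwa [neg_neg] at this)

theorem tr_map {k : Type} [Field k] [Algebra k ℂ] {n : ℕ} (x : Fin n → k)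
    (f : MvPolynomial (Fin n) k) : map (algebraMap k ℂ) (tre x f) =
      tre (fun i => algebraMap k ℂ (x i)) (map (algebraMap k ℂ) f) := by
  show map (algebraMap k ℂ) (tr x f) = tr (fun i => algebraMap k ℂ (x i)) (map (algebraMap k ℂ) f)
  induction f using MvPolynomial.induction_on with
  | C a =>
    rw [map_C, ← algebraMap_eq, ← algebraMap_eq, AlgHom.commutes, AlgHom.commutes, algebraMap_eq,
      algebraMap_eq, map_C]
  | add p q hp hq => rw [map_add, map_add, map_add, map_add, hp, hq]
  | mul_X p i hp =>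
    rw [map_mul, map_mul, map_mul, map_mul, hp, map_X]
    unfold tr
    rw [aeval_X, aeval_X, map_add, map_X, map_C]

/-- **The strong monodromy conjecture for all polynomials is equivalent to the one for the cubic
polynomials `Q(x) + ∑_j y_j q_j(x)` with squarefree monomials**, at all points; for the rational
points, to the one at the origin. -/
theorem result (k : Type) [Field k] [Algebra k ℂ] :
    (∀ (K : Type) [Field K] [Algebra k K],
      (∀ (n : ℕ) (F : MvPolynomial (Fin n) k) (x : Fin n → K), F ≠ 0 → Cubic F →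
        eval x (map (algebraMap k K) F) = 0 → StrongAt K F x) ↔
      (∀ (n : ℕ) (f : MvPolynomial (Fin n) k) (x : Fin n → K), f ≠ 0 →
        eval x (map (algebraMap k K) f) = 0 → StrongAt K f x)) ∧
    ((∀ (n : ℕ) (F : MvPolynomial (Fin n) k), F ≠ 0 → Cubic F →
        eval 0 F = 0 → StrongAt k F 0) ↔
      (∀ (n : ℕ) (f : MvPolynomial (Fin n) k) (x : Fin n → k), f ≠ 0 →
        eval x f = 0 → StrongAt k f x)) ∧
    (∀ (K : Type) [Field K] [Algebra k K] (n : ℕ) (f : MvPolynomial (Fin n) k) (x : Fin n → K),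
      f ≠ 0 → eval x (map (algebraMap k K) f) = 0 → StrongAt K f x → WeakAt K f x) := by
  have hne : ∀ (K : Type) [Field K] [Algebra k K] (n : ℕ) (f : MvPolynomial (Fin n) k)
      (x : Fin n → K), f ≠ 0 → eval x (map (algebraMap k K) f) = 0 → f.totalDegree ≠ 0 := by
    intro K _ _ n f x hf hx h
    rw [totalDegree_eq_zero_iff_eq_C] at h
    rw [h, map_C, eval_C] at hx
    have h2 := (map_eq_zero (algebraMap k K)).1 hx
    rw [h2, map_zero] at h
    exact hf h
  have hne' : ∀ (n : ℕ) (F : MvPolynomial (Fin n) k), F.totalDegree ≠ 0 → F ≠ 0 := by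
    rintro n F h rfl
    exact h totalDegree_zero
  refine ⟨?_, ?_, ?_⟩
  · intro K _ _
    refine ⟨fun H n f x hf hx => ?_, fun H n F x h1 _ h3 => H n F x h1 h3⟩
    exact Pool.Agent.K4H43.CR.main' (fun _ _ => True) (fun _ _ _ => trivial)
      (fun _ _ _ _ _ _ _ _ => trivial)
      (fun n F x h1 h2 _ h4 => H n F x (hne' n F h1) (cubic_of h2) h4)
      n f (hne K n f x hf hx) x trivial hx
  · refine ⟨fun H n f x hf hx => ?_, fun H n F h1 _ h3 => H n F 0 h1 h3⟩
    have hd : f.totalDegree ≠ 0 := hne k n f x hf (by rwa [Algebra.algebraMap_self, map_id])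
    have hg0 : tre x f ≠ 0 := (map_ne_zero_iff _ (tre x).injective).2 hf
    have e0 : Pool.Agent.K4H43.CR.tp (tre x) x = 0 := by
      funext j
      show eval x (tr (-x) (X j)) = 0
      unfold tr
      rw [aeval_X, map_add, eval_X, eval_C, Pi.neg_apply, add_neg_cancel]
    have hg1 : eval 0 (tre x f) = 0 := by
      rw [← e0, Pool.Agent.K4H43.CR.eval_tp, AlgEquiv.symm_apply_apply, hx]
    obtain ⟨S, h1, h2, h3⟩ := Pool.Agent.K4H43.CR.main' (k := k) (K := k)
      (fun n (x : Fin n → k) => x = 0)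
      (fun n x hx => by rw [hx]; exact Pool.Agent.K4H43.CR.origin_app n)
      (fun n x a r c ha hr hx => by
        rw [hx]; exact Pool.Agent.K4H43.CR.origin_tp n a r c ha hr)
      (fun n F x h1 h2 h3 h4 => by
        rw [h3]
        refine H n F (hne' n F h1) (cubic_of h2) ?_
        rw [h3, Algebra.algebraMap_self, map_id] at h4
        exact h4)
      n (tre x f) (hne k n _ 0 hg0 (by rwa [Algebra.algebraMap_self, map_id])) 0 rfl
      (by rwa [Algebra.algebraMap_self, map_id])
    refine ⟨S, h1, fun p hp => ⟨(h2 p hp).1, fun c hc => (h2 p hp).2 c ?_⟩, ?_⟩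
    · rw [tr_map]
      have h4 := Pool.Agent.W578.SI.b_transfer (tre fun i => algebraMap k ℂ (x i))
        (Pool.Agent.K4H43.CR.cj_all _) 1 one_ne_zero _ _ hc
      rwa [C_1, one_mul] at h4
    · have hk : CharZero k := (algebraMap k ℂ).charZero
      rw [Algebra.algebraMap_self, map_id] at h3 ⊢
      rw [← e0, Pool.Agent.K4H43.CR.zeta_point' _ _ _ hx] at h3
      exact h3
  · rintro K _ _ n f x hf hx ⟨S, h1, h2, h3⟩
    have hd := hne K n f x hf hx
    have hc : (map (algebraMap k ℂ) f).totalDegree ≠ 0 := Pool.Agent.K4H43.CR.deg_map hd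
    refine ⟨insert (-1, 1) S, h1.insert _, ?_, ?_⟩
    · rintro p (rfl | hp)
      · refine ⟨one_pos, fun b hb => ?_⟩
        have := Pool.Agent.K4H43.CR.root_neg_one hc hb
        simpa using this
      · refine ⟨(h2 p hp).1, fun b hb => ?_⟩
        have h4 := Pool.Agent.K4H43.CR.root_neg_one hc hb
        obtain ⟨c, rfl⟩ : (Polynomial.X + 1) ∣ b := by
          rw [show (Polynomial.X + 1 : Polynomial ℂ) = Polynomial.X - Polynomial.C (-1) by
            rw [map_neg, map_one, sub_neg_eq_add]]
          exact Polynomial.dvd_iff_isRoot.2 h4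
        rw [Polynomial.eval_mul, (h2 p hp).2 c hb, mul_zero]
    · have hk : CharZero k := (algebraMap k ℂ).charZero
      have hK : CharZero K := charZero_of_injective_algebraMap (algebraMap k K).injective
      rw [Pool.Agent.K4H43.CR.zeta_eq _ _ hx] at h3 ⊢
      exact Pool.Agent.Y229.MS.zeta_of_fst _ _ _ _ h3

end Pool.Agent.Results.MP_b91a16_ag.CubicReduction
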