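import Pool.Agent.K4H43.GC.Comp
import Pool.Agent.TH216.MF.HDM

/-!
# The motivic monodromy conjecture at all points for stably generic polynomials and for compositions
# with generic coefficients

Let `f` be a polynomial in `x_1, …, x_n` over a field `k ⊂ ℂ` such that, for some `κ ≥ 0`,
`f(x) + y_1 z_1 + ⋯ + y_κ z_κ` becomes, by an automorphism of the polynomial ring `k[x, y, z]`, a
polynomial `G = ∑_j c_j X ^ (v j) + h` with arbitrary fixed `h` (with exponents in the Newton polyhedron
of the `v j`) and generic coefficients `c_j`. We prove the motivic monodromy conjecture for `f`, in its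
strong form (with roots of the Bernstein-Sato polynomial), at all points with coordinates in an
arbitrary field `K ⊃ k`, under a condition on the facets of the Newton polyhedron of `G`: no
candidate pole of `G` comes only from `B1`-facets, except for candidate poles which come only from
facets which are simplices, or `B1` in a common direction near every vertex.

Main case: `f(x) = Φ(x, p_1(x), …, p_κ(x))`, where the coefficients of `Φ(x, z)` and of the `p_i(x)` at
the vertices of the Newton polyhedron of `G = Φ(x, z) + ∑_i y_i (c_i z_i - p_i(x))` are generic. For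
example `f = ∑_j a_j x ^ (u_j) (x ^ α - λ x ^ β) ^ (e_j)` with generic `a_j`, `λ`. Such an `f` is in general
degenerate with respect to its Newton polyhedron in all coordinates. The iterated compositions are
in the first part of the theorem. For `κ = 0` these are the earlier results for generic
coefficients; for affinely independent exponents the earlier result `StablySparse`.

Method. The zeta functions of `f` are determined by those of `G` and `G + y z` (jets, in the
Grothendieck ring localised at `𝕃`). By a scaling of coordinates `G + y z` can be replaced by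
`G + t y z`, `t ∈ ℚ^×`, so that `G` and `G + t y z` are both members of families with generic
coefficients; the conditions on the facets are inherited from `G` by `G + t y z`. For generic
coefficients the denominator of `(1 - 𝕃⁻¹ T) Z_G(T)` has only factors `1 - 𝕃 ^ (- |a|) T ^ (N_a)` of
rays `a` for which `- |a| / N_a` is a root of every `c(s)` with `(s + 1) c(s)` in the Bernstein-Sato
ideal of `G`, also for `|a| = N_a`; this refines the earlier results by the multiplicity of the root `-1`
and is proved for the generic member of the family first. Finally a functional equation of `f` with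
`b(s) = (s + 1) c(s)` gives one of `G`, with `(s + 1) c(s + κ)`.
-/

set_option autoImplicit false

namespace Pool.Agent.Results.MP_b91a16_ag.GenericCompositions

open MvPolynomial Pool.Agent.W428.MOT
open Pool.Agent.W375.MG (zetaG Good)
open Pool.Agent.Y229.RE (ex)
open Pool.Agent.Y229.MS (stabK)
open Pool.Agent.TH216.HD (poly InPoly ordA OnFace IsRay lev NonB1 Simp B1Dir LocS)
open Pool.Agent.K4H43.GC (exw hG tup)

/-- The strong form of the motivic monodromy conjecture for `f` at all points, with the finite set `S`
of pairs `(a, b)` of integers: `b > 0` and `a / b` is a root of every polynomial `b` with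
`b(s) f ^ s = P(s) f ^ (s + 1)`, `P(s)` a differential operator in the Weyl algebra, polynomial in `s`
(`IsBFunction`), in particular of the Bernstein-Sato polynomial of `f`; and for every field `K ⊃ k`
and every point `x` with coordinates in `K` the local motivic zeta function
`zeta f x = ∑_{N ≥ 1} [X_{N,1,x}] 𝕃 ^ (-n N) T ^ N` is in the ring `ratRing K S` generated over
`K₀(Var_K)[𝕃⁻¹]` by `T` and the `1 / (1 - 𝕃 ^ a T ^ b)`, `(a, b) ∈ S`. The same holds for the zeta
functions `zetaG f W E` of the jets with origin in a constructible set `W` for which the leading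
coefficient of `f` is in a constructible set `E` of nonzero numbers (for all nonzero numbers: the
naive motivic zeta function). -/
def StrongMC {k : Type} [Field k] [Algebra k ℂ] {n : ℕ} (f : MvPolynomial (Fin n) k)
    (S : Finset (ℤ × ℤ)) : Prop :=
  (∀ p ∈ S, 0 < p.2 ∧ ∀ b : Polynomial ℂ,
    Pool.Agent.H628R4.TP.IsBFunction (map (algebraMap k ℂ) f) b →
      b.eval ((p.1 : ℂ) / p.2) = 0) ∧
  ∀ (K : Type) [Field K] [Algebra k K],
    (∀ x : Fin n → K, zeta (map (algebraMap k K) f) x ∈ ratRing K S) ∧
    ∀ (W : Set (Pt K (Fin n))) (E : Set (AlgebraicClosure K)), Constr W → Good E →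
      zetaG (map (algebraMap k K) f) W E ∈ ratRing K S

/-- The condition on the facets of the Newton polyhedron of `∑_j c_j X ^ (v j) + h`. For every `a ∈ ℕ ^ N`
whose face is a facet (`IsRay`) and with `N_a = ordA v a = min_j ⟨a, v j⟩ > 0`, the level
`lev v a = |a| / N_a` is the level of an `a'` whose face contains a simplex which is not `B1`
(`NonB1`), or `LocS`: at every vertex all facets with this level are simplices or `B1` in a common
direction. -/
def Cond {R : Type} [CommRing R] {r N : ℕ} (v : Fin r → Fin N → ℕ) (h : MvPolynomial (Fin N) R) :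
    Prop :=
  ∀ a : Fin N → ℕ, IsRay v a → 0 < ordA v a →
    (∃ a' : Fin N → ℕ, 0 < ordA v a' ∧ NonB1 v False a' ∧ lev v a = lev v a') ∨
    LocS v h (lev v a)

/-- **The motivic monodromy conjecture (Bernstein-Sato form) at all points for stably generic
polynomials and for compositions with generic coefficients.**

`poly v c h = ∑_j c_j X ^ (v j) + h`; `stabK f κ` is `f(x) + ∑_{i ≤ κ} y_i z_i` in `n + 2 κ` variables;
`InPoly v w` says that `w` is in the Newton polyhedron `conv {v j} + ℝ_{≥ 0} ^ N`.

First part. Let the exponent vectors `v j` be distinct and `≠ 0`, the exponents of `h` in the Newton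
polyhedron of the `v j`, and `Cond v h`. Then for a nonzero polynomial `g` over `F`: if `k ⊃ F` is a
field with a compatible embedding in `ℂ`, `g(c) ≠ 0`, `f` is a non-constant polynomial over `k` and `φ`
is an automorphism of the `k`-algebra `k[x, y, z]` with `φ(f + ∑ y_i z_i) = ∑_j c_j X ^ (v j) + h`, then
`StrongMC f S` for a finite set `S` of pairs `(a, b)` (`a < 0` by the theorem of Kashiwara).

Second part (compositions). Let exponents `m_j` of monomials in `x_1, …, x_n, z_1, …, z_κ` be given,
`j = 1, …, r`, in groups `π j ∈ {0, …, κ}`, distinct in every group, `m_j ≠ 0` in the group `0`, and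
polynomials `H_0, …, H_κ` in `x, z` over `F`. Let `tup π m a H i = ∑_{π j = i} a_j X ^ (m_j) + H_i`, let
`ex π m j` be the exponent of `X ^ (m_j)` or `y_i X ^ (m_j)` (`i = π j`), in `n + 2 κ` variables, `exw i w`
the exponent of `X ^ w` or `y_i X ^ w`, and `hG H = H_0 + ∑_i y_i H_i`. If the exponents of `hG H` are in
the Newton polyhedron of `ex π m` and `Cond (ex π m) (hG H)`, then for a nonzero polynomial `g` over
`F`: if `g(a) ≠ 0`, `Φ = tup π m a H 0` and `tup π m a H i = c_i z_i - p_i(x)`, `c_i ≠ 0`, for
`i = 1, …, κ`, then the conclusion holds for `f(x) = Φ(x, p_1(x) / c_1, …, p_κ(x) / c_κ)`,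
non-constant, with `a < 0 < b` for all `(a, b) ∈ S`. -/
theorem result (F : Type) [Field F] [Algebra F ℂ] {n κ r : ℕ} (hr : 1 ≤ r) :
    (∀ v : Fin r → Fin (n + (κ + κ)) → ℕ, Function.Injective v → (∀ j, v j ≠ 0) →
      ∀ h : MvPolynomial (Fin (n + (κ + κ))) F, (∀ w ∈ h.support, InPoly v w) → Cond v h →
      ∃ g : MvPolynomial (Fin r) F, g ≠ 0 ∧
        ∀ (k : Type) [Field k] [Algebra F k] [Algebra k ℂ] [IsScalarTower F k ℂ]
          (c : Fin r → k), aeval c g ≠ 0 →
        ∀ f : MvPolynomial (Fin n) k, f.totalDegree ≠ 0 →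
        ∀ φ : MvPolynomial (Fin (n + (κ + κ))) k ≃ₐ[k] MvPolynomial (Fin (n + (κ + κ))) k,
        φ (stabK f κ) = poly v c h →
        ∃ S : Finset (ℤ × ℤ), StrongMC f S) ∧
    (∀ (π : Fin r → Fin (κ + 1)) (m : Fin r → Fin (n + κ) → ℕ),
      (∀ j j', π j = π j' → m j = m j' → j = j') → (∀ j, π j = 0 → m j ≠ 0) →
      ∀ H : Fin (κ + 1) → MvPolynomial (Fin (n + κ)) F,
      (∀ i, ∀ w ∈ (H i).support,
        InPoly (ex π m) (Finsupp.equivFunOnFinite.symm (exw i fun v => w v))) →
      Cond (ex π m) (hG H) →
      ∃ g : MvPolynomial (Fin r) F, g ≠ 0 ∧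
        ∀ (k : Type) [Field k] [Algebra F k] [Algebra k ℂ] [IsScalarTower F k ℂ]
          (a : Fin r → k), aeval a g ≠ 0 →
        ∀ c : Fin κ → k, (∀ i, c i ≠ 0) → ∀ p : Fin κ → MvPolynomial (Fin n) k,
        (∀ i : Fin κ, tup π m a H i.succ = C (c i) * X (Fin.natAdd n i) -
          rename (Fin.castAdd κ) (p i)) →
        ∀ f : MvPolynomial (Fin n) k,
        f = aeval (Fin.append X fun i => C (c i)⁻¹ * p i) (tup π m a H 0) → f.totalDegree ≠ 0 →
        ∃ S : Finset (ℤ × ℤ), (∀ p ∈ S, p.1 < 0) ∧ StrongMC f S) := by
  have hcond : ∀ {N : ℕ} (v : Fin r → Fin N → ℕ) (h : MvPolynomial (Fin N) F), Cond v h →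
      Pool.Agent.K4H43.GC.HypR v h := by
    intro N v h hC a ha hg
    rcases hC a ha hg with h1 | h1
    · exact Or.inl h1
    · exact Or.inr ((Pool.Agent.TH216.HD.locS_iff v h _).2 h1)
  have hgen : ∀ (k : Type) [Field k] [Algebra F k] [Algebra k ℂ] [IsScalarTower F k ℂ]
      (c : Fin r → k) (g : MvPolynomial (Fin r) F), aeval c g ≠ 0 →
      aeval (fun j => algebraMap k ℂ (c j)) g ≠ 0 := by
    intro k _ _ _ _ c g hc h0
    have h1 : algebraMap k ℂ (aeval c g) = 0 := by
      rw [← h0, ← aeval_algebraMap_apply]
      rfl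
    exact hc ((map_eq_zero _).1 h1)
  have hfin : ∀ (k : Type) [Field k] [Algebra k ℂ] (f : MvPolynomial (Fin n) k)
      (S : Finset (ℤ × ℤ)), (∀ p ∈ S, 0 < p.2 ∧ ∀ b : Polynomial ℂ,
        Pool.Agent.H628R4.TP.IsBFunction (map (algebraMap k ℂ) f) b →
          b.eval ((p.1 : ℂ) / p.2) = 0) →
      (∀ (K : Type) [Field K] [Algebra k K] (W : Set (Pt K (Fin n)))
        (E : Set (AlgebraicClosure K)), Constr W → Good E →
        zetaG (map (algebraMap k K) f) W E ∈ ratRing K S) → StrongMC f S := by
    intro k _ _ f S h1 h2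
    exact ⟨h1, fun K _ _ => ⟨fun x => Pool.Agent.W425.MM.zeta_mem _ x S
      (fun W E hW hE => h2 K W E hW hE), fun W E hW hE => h2 K W E hW hE⟩⟩
  refine ⟨?_, ?_⟩
  · intro v hv hv0 h hh hC
    obtain ⟨g, hg, hgz⟩ := Pool.Agent.K4H43.GC.stab_gen (F := F) (show 0 < r by omega) n κ v hv hv0
      h hh (hcond v h hC)
    refine ⟨g, hg, ?_⟩
    intro k _ _ _ _ c hc f hf φ hφ
    obtain ⟨S, hS, hz⟩ := hgz k c (hgen k c g hc) f hf φ (by
      rw [hφ]
      rfl)
    exact ⟨S, hfin k f S (fun p hp => ⟨(hS p hp).1, (hS p hp).2.2⟩) hz⟩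
  · intro π m hinj hm H hH hC
    obtain ⟨g, hg, hgz⟩ := Pool.Agent.K4H43.GC.comp_gen (F := F) (show 0 < r by omega) n κ π m
      hinj hm H hH (hcond _ _ hC)
    refine ⟨g, hg, ?_⟩
    intro k _ _ _ _ a ha c hc p hl f hff hf
    obtain ⟨S, hS, hz⟩ := hgz k a (hgen k a g ha) c p hc hl f hff hf
    exact ⟨S, fun q hq => (hS q hq).1, hfin k f S (fun q hq => (hS q hq).2) hz⟩

end Pool.Agent.Results.MP_b91a16_ag.GenericCompositions
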